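import Pool.Agent.MP_c69980_ag.H4.SpecC

/-!
Holomorphic roots of a monic polynomial along a disc.
-/

set_option autoImplicit false

noncomputable section

namespace Pool.Agent.MP_c69980_ag.H61

open Polynomial Metric Filter Topology Set

/-- The map `(t, y) ↦ (t, P(t, y))`. -/
def Phi (P : Polynomial (Polynomial ℂ)) (q : ℂ × ℂ) : ℂ × ℂ := (q.1, P.evalEval q.1 q.2)

theorem ev_smooth (P : Polynomial (Polynomial ℂ)) :
    ContDiff ℂ 1 (fun q : ℂ × ℂ => P.evalEval q.1 q.2) := by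
  induction P using Polynomial.induction_on' with
  | add p q hp hq =>
    simp only [evalEval_add]
    exact hp.add hq
  | monomial n a =>
    have h : (fun q : ℂ × ℂ => (monomial n a : Polynomial (Polynomial ℂ)).evalEval q.1 q.2) =
        fun q => a.eval q.1 * q.2 ^ n := by
      funext q
      rw [← C_mul_X_pow_eq_monomial, evalEval_mul, evalEval_C, evalEval_pow, evalEval_X]
    rw [h]
    have ha : ContDiff ℂ 1 (fun t : ℂ => a.eval t) := a.differentiable.contDiff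
    exact (ha.comp contDiff_fst).mul (contDiff_snd.pow n)

theorem phi_smooth (P : Polynomial (Polynomial ℂ)) : ContDiff ℂ 1 (Phi P) :=
  contDiff_fst.prodMk (ev_smooth P)

theorem ev_deriv (P : Polynomial (Polynomial ℂ)) (t y : ℂ) :
    HasDerivAt (fun v : ℂ => P.evalEval t v) (P.derivative.evalEval t y) y := by
  have h := (P.map (evalRingHom t)).hasDerivAt y
  rw [derivative_map, map_evalRingHom_eval] at h
  simpa only [map_evalRingHom_eval] using h

theorem phi_strict (P : Polynomial (Polynomial ℂ)) (q : ℂ × ℂ)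
    (h : P.derivative.evalEval q.1 q.2 ≠ 0) :
    ∃ e : (ℂ × ℂ) ≃L[ℂ] (ℂ × ℂ), HasStrictFDerivAt (Phi P) (e : (ℂ × ℂ) →L[ℂ] (ℂ × ℂ)) q := by
  have hs : HasStrictFDerivAt (fun q : ℂ × ℂ => P.evalEval q.1 q.2)
      (fderiv ℂ (fun q : ℂ × ℂ => P.evalEval q.1 q.2) q) q :=
    (ev_smooth P).contDiffAt.hasStrictFDerivAt one_ne_zero
  set D := fderiv ℂ (fun q : ℂ × ℂ => P.evalEval q.1 q.2) q with hD
  have h1 : D (0, 1) = P.derivative.evalEval q.1 q.2 := by
    have hl : HasDerivAt (fun v : ℂ => ((q.1, v) : ℂ × ℂ)) (0, 1) q.2 :=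
      (hasDerivAt_const q.2 q.1).prodMk (hasDerivAt_id q.2)
    have h2 := hs.hasFDerivAt.comp_hasDerivAt_of_eq q.2 hl rfl
    exact h2.unique (ev_deriv P q.1 q.2)
  let L : (ℂ × ℂ) →L[ℂ] (ℂ × ℂ) := (ContinuousLinearMap.fst ℂ ℂ ℂ).prod D
  have hL : HasStrictFDerivAt (Phi P) L q := hasStrictFDerivAt_fst.prodMk hs
  have hinj : Function.Injective (L : (ℂ × ℂ) →ₗ[ℂ] (ℂ × ℂ)) := by
    rw [injective_iff_map_eq_zero]
    rintro ⟨u, v⟩ huv
    have hu : u = 0 := congrArg Prod.fst huv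
    have hv : D (u, v) = 0 := congrArg Prod.snd huv
    subst hu
    have h3 : ((0, v) : ℂ × ℂ) = v • ((0, 1) : ℂ × ℂ) := by simp
    rw [h3, map_smul, h1, smul_eq_mul, mul_eq_zero] at hv
    rcases hv with hv | hv
    · simp [hv]
    · exact absurd hv h
  refine ⟨(LinearEquiv.ofInjectiveEndo _ hinj).toContinuousLinearEquiv, ?_⟩
  convert hL using 1
  ext <;> rfl

theorem root_bd (P : Polynomial (Polynomial ℂ)) (hP : P.Monic) (hn : 0 < P.natDegree) (R : ℝ) :
    ∃ M : ℝ, ∀ t y : ℂ, ‖t‖ ≤ R → ‖P.evalEval t y‖ ≤ R → ‖y‖ ≤ M := by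
  have hc : ContinuousOn (fun t : ℂ => ∑ i ∈ Finset.range P.natDegree, ‖(P.coeff i).eval t‖)
      (closedBall 0 R) :=
    (continuous_finsetSum _ fun i _ => (P.coeff i).continuous.norm).continuousOn
  obtain ⟨A, hA⟩ := (isCompact_closedBall (0 : ℂ) R).exists_bound_of_continuousOn hc
  refine ⟨max 1 (R + A), fun t y ht hy => ?_⟩
  by_contra hlt
  rw [not_le, max_lt_iff] at hlt
  obtain ⟨h1, h2⟩ := hlt
  obtain ⟨m, hm⟩ : ∃ m, P.natDegree = m + 1 := ⟨P.natDegree - 1, by omega⟩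
  have hR : 0 ≤ R := (norm_nonneg _).trans ht
  have hA' : ∑ i ∈ Finset.range P.natDegree, ‖(P.coeff i).eval t‖ ≤ A :=
    (Real.le_norm_self _).trans (hA t (by simpa using ht))
  have he : P.evalEval t y = y ^ (m + 1) +
      ∑ i ∈ Finset.range P.natDegree, (P.coeff i).eval t * y ^ i := by
    conv_lhs => rw [hP.as_sum]
    rw [evalEval_add, evalEval_pow, evalEval_X, evalEval_finsetSum, hm]
    congr 1
    refine Finset.sum_congr rfl fun i _ => ?_
    rw [evalEval_mul, evalEval_C, evalEval_pow, evalEval_X]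
  have hs : ‖∑ i ∈ Finset.range P.natDegree, (P.coeff i).eval t * y ^ i‖ ≤ A * ‖y‖ ^ m := by
    calc ‖∑ i ∈ Finset.range P.natDegree, (P.coeff i).eval t * y ^ i‖
        ≤ ∑ i ∈ Finset.range P.natDegree, ‖(P.coeff i).eval t‖ * ‖y‖ ^ m := by
          refine (norm_sum_le _ _).trans (Finset.sum_le_sum fun i hi => ?_)
          rw [norm_mul, norm_pow]
          have hi' : i ≤ m := by have := Finset.mem_range.1 hi; omega
          exact mul_le_mul_of_nonneg_left (pow_le_pow_right₀ h1.le hi') (norm_nonneg _)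
      _ ≤ A * ‖y‖ ^ m := by
          rw [← Finset.sum_mul]
          exact mul_le_mul_of_nonneg_right hA' (by positivity)
  have h3 : ‖y‖ ^ (m + 1) ≤ R + A * ‖y‖ ^ m := by
    have h4 : y ^ (m + 1) = P.evalEval t y -
        ∑ i ∈ Finset.range P.natDegree, (P.coeff i).eval t * y ^ i := by rw [he]; ring
    rw [← norm_pow, h4]
    exact (norm_sub_le _ _).trans (add_le_add hy hs)
  have h5 : 1 ≤ ‖y‖ ^ m := one_le_pow₀ h1.le
  have h6 : (R + A) * ‖y‖ ^ m < ‖y‖ * ‖y‖ ^ m := mul_lt_mul_of_pos_right h2 (by linarith)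
  rw [pow_succ] at h3
  nlinarith

theorem phi_closed (P : Polynomial (Polynomial ℂ)) (hP : P.Monic) (hn : 0 < P.natDegree) :
    IsClosedMap (Phi P) := by
  refine IsProperMap.isClosedMap ?_
  rw [isProperMap_iff_isCompact_preimage]
  refine ⟨(phi_smooth P).continuous, fun K hK => ?_⟩
  obtain ⟨R, hR⟩ := hK.isBounded.exists_norm_le
  obtain ⟨M, hM⟩ := root_bd P hP hn R
  refine isCompact_of_isClosed_isBounded (hK.isClosed.preimage (phi_smooth P).continuous) ?_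
  refine (isBounded_closedBall (x := (0 : ℂ × ℂ)) (r := max R M)).subset fun q hq => ?_
  have h := hR _ hq
  have h1 : ‖q.1‖ ≤ R := (norm_fst_le (Phi P q)).trans h
  have h2 : ‖P.evalEval q.1 q.2‖ ≤ R := (norm_snd_le (Phi P q)).trans h
  rw [mem_closedBall, dist_zero_right, Prod.norm_def]
  exact max_le_max h1 (hM _ _ h1 h2)

theorem roots_enum (P : Polynomial (Polynomial ℂ)) (hP : P.Monic) (t : ℂ) :
    ∃ y : Fin P.natDegree → ℂ, ∀ w, P.evalEval t w = 0 ↔ ∃ i, w = y i := by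
  have hm : (P.map (evalRingHom t)).Monic := hP.map _
  have hc : (P.map (evalRingHom t)).roots.toList.length = P.natDegree := by
    rw [Multiset.length_toList, ← (IsAlgClosed.splits _).natDegree_eq_card_roots,
      hP.natDegree_map]
  refine ⟨fun i => (P.map (evalRingHom t)).roots.toList.get (i.cast hc.symm), fun w => ?_⟩
  rw [← map_evalRingHom_eval, ← IsRoot.def, ← mem_roots hm.ne_zero, ← Multiset.mem_toList,
    List.mem_iff_get]
  constructor
  · rintro ⟨i, hi⟩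
    exact ⟨i.cast hc, hi.symm⟩
  · rintro ⟨i, hi⟩
    exact ⟨i.cast hc.symm, hi.symm⟩

theorem phi_cover (P : Polynomial (Polynomial ℂ)) (hP : P.Monic) (hn : 0 < P.natDegree) :
    IsCoveringMapOn (Phi P)
      {x | x.2 = 0 ∧ ∀ y, P.evalEval x.1 y = 0 → P.derivative.evalEval x.1 y ≠ 0} := by
  refine (phi_closed P hP hn).isCoveringMapOn_of_isLocalHomeomorphOn (fun x hx => ?_)
    fun q hq => ?_
  · obtain ⟨y, hy⟩ := roots_enum P hP x.1
    refine (finite_range fun i => ((x.1, y i) : ℂ × ℂ)).subset fun q hq => ?_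
    have hq' : Phi P q = x := hq
    have h1 : q.1 = x.1 := (congrArg Prod.fst hq' :)
    have h2 : P.evalEval q.1 q.2 = x.2 := (congrArg Prod.snd hq' :)
    rw [hx.1, h1] at h2
    obtain ⟨i, hi⟩ := (hy _).1 h2
    exact ⟨i, Prod.ext h1.symm hi.symm⟩
  · obtain ⟨e, he⟩ := phi_strict P q (hq.2 q.2 hq.1)
    exact ⟨_, he.mem_toOpenPartialHomeomorph_source, by simp⟩

theorem diff_of_cont (P : Polynomial (Polynomial ℂ)) (ψ σ : ℂ → ℂ) (U : Set ℂ) (hU : IsOpen U)
    (hψ : DifferentiableOn ℂ ψ U) (hσ : ContinuousOn σ U)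
    (h0 : ∀ z ∈ U, P.evalEval (ψ z) (σ z) = 0)
    (h1 : ∀ z ∈ U, P.derivative.evalEval (ψ z) (σ z) ≠ 0) : DifferentiableOn ℂ σ U := by
  intro z hz
  have hn := hU.mem_nhds hz
  obtain ⟨e, he⟩ := phi_strict P (ψ z, σ z) (h1 z hz)
  have hd : DifferentiableAt ℂ ψ z := hψ.differentiableAt hn
  have hc : ContinuousAt (fun w => ((ψ w, σ w) : ℂ × ℂ)) z :=
    hd.continuousAt.prodMk (hσ.continuousAt hn)
  have hg := he.to_localInverse.hasFDerivAt.differentiableAt
  have hz' : Phi P (ψ z, σ z) = (ψ z, 0) := Prod.ext rfl (h0 z hz)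
  rw [hz'] at hg
  have hd2 : DifferentiableAt ℂ (fun w => ((ψ w, 0) : ℂ × ℂ)) z :=
    hd.prodMk (differentiableAt_const _)
  have hd3 : DifferentiableAt ℂ
      (fun w => (he.localInverse (Phi P) e (ψ z, σ z) (ψ w, 0)).2) z :=
    (DifferentiableAt.comp z (f := fun w => ((ψ w, 0) : ℂ × ℂ)) hg hd2).snd
  refine (hd3.congr_of_eventuallyEq ?_).differentiableWithinAt
  filter_upwards [hc.eventually he.eventually_left_inverse, hn] with w hw hwU
  have hw' : Phi P (ψ w, σ w) = (ψ w, 0) := Prod.ext rfl (h0 w hwU)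
  rw [hw'] at hw
  rw [hw]

theorem root' (P : Polynomial (Polynomial ℂ)) (ψ : ℂ → ℂ) (s : ℝ) (hP : P.Monic)
    (hψ : DifferentiableOn ℂ ψ (ball 0 s))
    (hs : ∀ z ∈ ball (0 : ℂ) s, ∀ y, P.evalEval (ψ z) y = 0 →
      P.derivative.evalEval (ψ z) y ≠ 0) :
    ∃ σ : Fin P.natDegree → ℂ → ℂ, (∀ i, DifferentiableOn ℂ (σ i) (ball 0 s)) ∧
      ∀ z ∈ ball (0 : ℂ) s, ∀ y, P.evalEval (ψ z) y = 0 ↔ ∃ i, y = σ i z := by
  classical
  rcases Nat.eq_zero_or_pos P.natDegree with hn | hn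
  · refine ⟨fun _ _ => 0, fun _ => differentiableOn_const _, fun z _ y => ?_⟩
    obtain ⟨v, hv⟩ := roots_enum P hP (ψ z)
    rw [hv]
    constructor
    · rintro ⟨i, -⟩
      exact absurd i.2 (by omega)
    · rintro ⟨i, -⟩
      exact absurd i.2 (by omega)
  rcases le_or_gt s 0 with hs0 | hs0
  · rw [ball_eq_empty.2 hs0]
    exact ⟨fun _ _ => 0, fun _ => differentiableOn_const _, fun z hz => absurd hz (notMem_empty z)⟩
  have h0 : (0 : ℂ) ∈ ball (0 : ℂ) s := mem_ball_self hs0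
  have : ContractibleSpace (ball (0 : ℂ) s) := (convex_ball (0 : ℂ) s).contractibleSpace ⟨0, h0⟩
  have : LocallyPathConnectedSpace (ball (0 : ℂ) s) := isOpen_ball.locallyPathConnectedSpace
  let f : C(ball (0 : ℂ) s, ℂ × ℂ) :=
    ⟨fun z => (ψ z, 0),
      (continuousOn_iff_continuous_domRestrict.1 hψ.continuousOn).prodMk continuous_const⟩
  have key : ∀ (z : ball (0 : ℂ) s) (y : ℂ), P.evalEval (ψ z) y = 0 →
      ∃! F : C(ball (0 : ℂ) s, ℂ × ℂ), F z = (ψ z, y) ∧ Phi P ∘ F = f := fun z y hy =>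
    (phi_cover P hP hn).existsUnique_continuousMap_lifts f (Prod.ext rfl hy)
      fun a => ⟨rfl, hs a a.2⟩
  have prop : ∀ F : C(ball (0 : ℂ) s, ℂ × ℂ), Phi P ∘ F = f → ∀ z,
      (F z).1 = ψ z ∧ P.evalEval (ψ z) (F z).2 = 0 := by
    intro F hF z
    have h := congrFun hF z
    have h1 : (F z).1 = ψ z := congrArg Prod.fst h
    have h2 : P.evalEval (F z).1 (F z).2 = 0 := congrArg Prod.snd h
    rw [h1] at h2
    exact ⟨h1, h2⟩
  obtain ⟨v, hv⟩ := roots_enum P hP (ψ 0)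
  have hL := fun i => key ⟨0, h0⟩ (v i) ((hv _).2 ⟨i, rfl⟩)
  choose L hL1 hL2 using hL
  let σ : Fin P.natDegree → ℂ → ℂ := fun i z => if h : z ∈ ball (0 : ℂ) s then (L i ⟨z, h⟩).2 else 0
  have hσ : ∀ i (z : ball (0 : ℂ) s), σ i z = (L i z).2 := fun i z => dif_pos z.2
  have hr : ∀ i, ∀ z ∈ ball (0 : ℂ) s, P.evalEval (ψ z) (σ i z) = 0 := fun i z hz => by
    rw [hσ i ⟨z, hz⟩]
    exact (prop _ (hL1 i).2 ⟨z, hz⟩).2
  refine ⟨σ, fun i => ?_, fun z hz y => ⟨fun hy => ?_, ?_⟩⟩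
  · refine diff_of_cont P ψ _ _ isOpen_ball hψ ?_ (hr i) fun z hz => hs z hz _ (hr i z hz)
    rw [continuousOn_iff_continuous_domRestrict]
    have h : (ball (0 : ℂ) s).domRestrict (σ i) = fun z => (L i z).2 := funext (hσ i)
    rw [h]
    exact (L i).continuous.snd
  · obtain ⟨F, ⟨hF1, hF2⟩, -⟩ := key ⟨z, hz⟩ y hy
    obtain ⟨h1, h2⟩ := prop F hF2 ⟨0, h0⟩
    obtain ⟨i, hi⟩ := (hv _).1 h2
    have h3 : F = L i := hL2 i F ⟨Prod.ext h1 hi, hF2⟩
    refine ⟨i, ?_⟩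
    rw [hσ i ⟨z, hz⟩, ← h3, hF1]
  · rintro ⟨i, rfl⟩
    exact hr i z hz

theorem root : H4.RootStmt := fun P ψ s hP hψ hs => root' P ψ s hP hψ hs

end Pool.Agent.MP_c69980_ag.H61
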